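import Mathlib

open Filter Topology

namespace Pool.Agent.Results.MP_cc4673_an.ProductAtom

/-- `ℂⁿ` with the Euclidean norm. -/
abbrev E (n : ℕ) : Type := EuclideanSpace ℂ (Fin n)

/-- `h` has the L-property on `(z k)`: each compact `K ⊆ h(ℂⁿ)` contains `h (z k)` for only
finitely many `k`. -/
def LProp {n : ℕ} (h : E n → ℂ) (z : ℕ → E n) : Prop :=
  ∀ K : Set ℂ, IsCompact K → K ⊆ Set.range h → {k | h (z k) ∈ K}.Finite

/-- `(f, g)` is an ordered L-pair. -/
def LPair {n : ℕ} (f g : E n → ℂ) : Prop :=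
  ∀ z : ℕ → E n, Tendsto (fun k => ‖z k‖) atTop atTop → LProp f z → LProp g z

/-- `α` is an L-atom. -/
def LAtom {n : ℕ} (α : E n → ℂ) : Prop :=
  Differentiable ℂ α ∧ (∃ z w, α z ≠ α w) ∧
    ∀ f : E n → ℂ, Differentiable ℂ f → LPair f α →
      ∃ φ : ℂ → ℂ, DifferentiableOn ℂ φ (Set.range α) ∧ f = φ ∘ α

/-- `f` is the first component of an analytic automorphism of `ℂ^(m+1)`. -/
def IsCoord {m : ℕ} (f : E (m + 1) → ℂ) : Prop :=
  ∃ F : E (m + 1) → E (m + 1), Differentiable ℂ F ∧ Function.Bijective F ∧ ∀ z, F z 0 = f z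

/-- The point `(a, b)` of `ℂ²`. -/
noncomputable def pt (a b : ℂ) : E 2 := WithLp.toLp 2 ![a, b]

lemma pt_zero (a b : ℂ) : pt a b 0 = a := rfl
lemma pt_one (a b : ℂ) : pt a b 1 = b := rfl

lemma pt_eta (z : E 2) : pt (z 0) (z 1) = z := by
  ext i; fin_cases i <;> rfl

lemma diff_pt {a b : ℂ → ℂ} (ha : Differentiable ℂ a) (hb : Differentiable ℂ b) :
    Differentiable ℂ (fun t => pt (a t) (b t)) := by
  rw [differentiable_euclidean]
  intro i
  fin_cases i
  · exact ha
  · exact hb

lemma diff_coord (i : Fin 2) : Differentiable ℂ (fun z : E 2 => z i) :=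
  (differentiable_euclidean (𝕜 := ℂ) (f := fun z : E 2 => z)).1 differentiable_id i

lemma bdd_fiber {n : ℕ} {f α : E n → ℂ} (hf : Continuous f) (hp : LPair f α) (c : ℂ) :
    ∃ C : ℝ, ∀ z, α z = c → ‖f z‖ ≤ C := by
  by_contra hne
  push Not at hne
  choose z hz hz' using fun k : ℕ => hne (k : ℝ)
  have hfz : Tendsto (fun k => ‖f (z k)‖) atTop atTop :=
    tendsto_atTop_mono (fun k => (hz' k).le) tendsto_natCast_atTop_atTop
  have hnorm : Tendsto (fun k => ‖z k‖) atTop atTop := by
    rw [tendsto_atTop]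
    intro R
    obtain ⟨C, hC⟩ := (isCompact_closedBall (0 : E n) R).exists_bound_of_continuousOn
      hf.continuousOn
    filter_upwards [hfz.eventually_gt_atTop C] with k hk
    by_contra hlt
    push Not at hlt
    have := hC (z k) (by simpa using hlt.le)
    linarith
  have hL : LProp f z := by
    intro K hK _
    obtain ⟨C, hC⟩ := hK.isBounded.exists_norm_le
    obtain ⟨N, hN⟩ := eventually_atTop.1 (hfz.eventually_gt_atTop C)
    refine (Set.finite_lt_nat N).subset fun k hk => ?_
    by_contra hlt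
    have h1 := hN k (by simpa using hlt)
    have h2 := hC _ hk
    linarith
  have := hp z hnorm hL {c} isCompact_singleton (by
    rintro w rfl
    exact ⟨z 0, hz 0⟩)
  refine Set.infinite_univ (α := ℕ) (this.subset fun k _ => ?_)
  exact hz k

lemma atom : LAtom (fun z : E 2 => z 0 * z 1) := by
  refine ⟨(diff_coord 0).mul (diff_coord 1), ⟨pt 0 0, pt 1 1, by simp [pt_zero, pt_one]⟩, ?_⟩
  intro f hf hp
  refine ⟨fun c => f (pt 1 c), (hf.comp (diff_pt (differentiable_const _)
    differentiable_id)).differentiableOn, ?_⟩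
  have key : ∀ a b : ℂ, a ≠ 0 → f (pt a b) = f (pt 1 (a * b)) := by
    intro a b ha
    obtain ⟨C, hC⟩ := bdd_fiber hf.continuous hp (a * b)
    have hd : Differentiable ℂ
        (fun t => f (pt (Complex.exp t) (a * b * Complex.exp (-t)))) :=
      hf.comp (diff_pt (by fun_prop) (by fun_prop))
    have hb : Bornology.IsBounded (Set.range
        (fun t => f (pt (Complex.exp t) (a * b * Complex.exp (-t))))) := by
      rw [isBounded_iff_forall_norm_le]
      refine ⟨C, ?_⟩
      rintro _ ⟨t, rfl⟩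
      apply hC
      simp only [pt_zero, pt_one]
      rw [Complex.exp_neg]
      field_simp [Complex.exp_ne_zero t]
    have := hd.apply_eq_apply_of_bounded hb (Complex.log a) 0
    simp only [Complex.exp_neg, Complex.exp_log ha, Complex.exp_zero, neg_zero, mul_one] at this
    rw [← this]
    congr 2
    field_simp
  funext z
  rw [← pt_eta z]
  simp only [Function.comp, pt_zero, pt_one]
  set b := z 1
  have hc1 : Continuous (fun a : ℂ => f (pt a b)) :=
    (hf.comp (diff_pt differentiable_id (differentiable_const _))).continuous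
  have hc2 : Continuous (fun a : ℂ => f (pt 1 (a * b))) :=
    (hf.comp (diff_pt (differentiable_const _) (by fun_prop))).continuous
  have := Continuous.ext_on (dense_compl_singleton (0 : ℂ)) hc1 hc2
    (fun a ha => key a b ha)
  exact congrFun this (z 0)

lemma open_img {g : ℂ → ℂ} (hg : Differentiable ℂ g) (hi : Function.Injective g) :
    𝓝 (g 0) ≤ map g (𝓝 0) := by
  rcases (hg.analyticAt 0).eventually_constant_or_nhds_le_map_nhds with h | h
  · exfalso
    have h2 : ∀ᶠ z in 𝓝[≠] (0 : ℂ), g z = g 0 := h.filter_mono nhdsWithin_le_nhds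
    obtain ⟨z, hz, hz'⟩ := (h2.and self_mem_nhdsWithin).exists
    exact hz' (hi hz)
  · exact h

lemma not_coord : ¬ IsCoord (m := 1) (fun z : E 2 => z 0 * z 1) := by
  rintro ⟨F, hF, ⟨hinj, -⟩, h0⟩
  have hg1 : Differentiable ℂ (fun t => F (pt t 0) 1) :=
    (diff_coord 1).comp (hF.comp (diff_pt differentiable_id (differentiable_const _)))
  have hg2 : Differentiable ℂ (fun t => F (pt 0 t) 1) :=
    (diff_coord 1).comp (hF.comp (diff_pt (differentiable_const _) differentiable_id))
  have ext2 : ∀ z w : E 2, z 0 * z 1 = w 0 * w 1 → F z 1 = F w 1 → z = w := by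
    intro z w h1 h2
    apply hinj
    ext i
    fin_cases i
    · exact (h0 z).trans (h1.trans (h0 w).symm)
    · exact h2
  have hi1 : Function.Injective (fun t => F (pt t 0) 1) := by
    intro s t h
    have := ext2 (pt s 0) (pt t 0) (by simp [pt_one]) h
    exact congrArg (fun z : E 2 => z 0) this
  have hi2 : Function.Injective (fun t => F (pt 0 t) 1) := by
    intro s t h
    have := ext2 (pt 0 s) (pt 0 t) (by simp [pt_zero]) h
    exact congrArg (fun z : E 2 => z 1) this
  have h1 : Set.range (fun t => F (pt t 0) 1) ∈ 𝓝 (F (pt 0 0) 1) :=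
    open_img hg1 hi1 range_mem_map
  have h2 : Set.range (fun t => F (pt 0 t) 1) ∈ 𝓝 (F (pt 0 0) 1) :=
    open_img hg2 hi2 range_mem_map
  have h3 : ∀ᶠ w in 𝓝[≠] (F (pt 0 0) 1), w ∈ Set.range (fun t => F (pt t 0) 1) ∧
      w ∈ Set.range (fun t => F (pt 0 t) 1) :=
    Filter.Eventually.filter_mono nhdsWithin_le_nhds (Filter.inter_mem h1 h2)
  obtain ⟨w, ⟨⟨s, hs⟩, ⟨t, ht⟩⟩, hw⟩ := (h3.and self_mem_nhdsWithin).exists
  have := ext2 (pt s 0) (pt 0 t) (by simp [pt_zero, pt_one]) (hs.trans ht.symm)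
  have hs0 : s = 0 := congrArg (fun z : E 2 => z 0) this
  subst hs0
  exact hw hs.symm

theorem result :
    (LAtom (fun z : E 2 => z 0 * z 1) ∧ ¬ IsCoord (m := 1) (fun z : E 2 => z 0 * z 1)) ∧
    ¬ ∀ (m : ℕ) (f : E (m + 1) → ℂ), Differentiable ℂ f → (LAtom f ↔ IsCoord f) :=
  ⟨⟨atom, not_coord⟩, fun h => not_coord ((h 1 _ atom.1).1 atom)⟩

end Pool.Agent.Results.MP_cc4673_an.ProductAtom
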